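import Mathlib
import Pool.Agent.H49.Ent

/-!
# From entropy to sets

Let `n` be a group valued and `V` an arbitrary random variable, `f j` functions of `V`.  If `n` and
all `n + f j V` are nearly independent of `V`, and `n` is not full, there are finite sets `A`,
`A' j`, and `N v` for `v` in a set of values of `V` of positive probability, with
`N v ⊆ A`, `N v + f j v ⊆ A' j`, all of them of nearly the same size.
-/

set_option autoImplicit false

namespace Pool.CMPE

open Finset Pool.Agent.H49.Ent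

variable {Ω : Type*} [Fintype Ω]

open Classical in
/-- the probability of an event -/
noncomputable def Pr (p : Ω → ℝ) (E : Ω → Prop) : ℝ := ∑ ω, if E ω then p ω else 0

theorem Pr_nonneg {p : Ω → ℝ} (hp : ∀ ω, 0 ≤ p ω) (E : Ω → Prop) : 0 ≤ Pr p E := by
  classical
  unfold Pr
  exact Finset.sum_nonneg (fun ω _ => by split_ifs; exacts [hp ω, le_rfl])

theorem Pr_mono {p : Ω → ℝ} (hp : ∀ ω, 0 ≤ p ω) {E F : Ω → Prop}
    (h : ∀ ω, 0 < p ω → E ω → F ω) : Pr p E ≤ Pr p F := by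
  classical
  unfold Pr
  refine Finset.sum_le_sum (fun ω _ => ?_)
  rcases (hp ω).eq_or_lt with h0 | h0
  · simp [← h0]
  · by_cases hE : E ω
    · rw [if_pos hE, if_pos (h ω h0 hE)]
    · rw [if_neg hE]
      split_ifs
      · exact h0.le
      · exact le_rfl

theorem Pr_le_total {p : Ω → ℝ} (hp : ∀ ω, 0 ≤ p ω) (E : Ω → Prop) : Pr p E ≤ ∑ ω, p ω := by
  classical
  unfold Pr
  exact Finset.sum_le_sum (fun ω _ => by split_ifs; exacts [le_rfl, hp ω])

theorem Pr_or_le {p : Ω → ℝ} (hp : ∀ ω, 0 ≤ p ω) (E F : Ω → Prop) :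
    Pr p (fun ω => E ω ∨ F ω) ≤ Pr p E + Pr p F := by
  classical
  unfold Pr
  rw [← Finset.sum_add_distrib]
  refine Finset.sum_le_sum (fun ω _ => ?_)
  by_cases hE : E ω <;> by_cases hF : F ω <;> simp [hE, hF, hp ω]

theorem Pr_and_not {p : Ω → ℝ} (E F : Ω → Prop) :
    Pr p E = Pr p (fun ω => E ω ∧ F ω) + Pr p (fun ω => E ω ∧ ¬ F ω) := by
  classical
  unfold Pr
  rw [← Finset.sum_add_distrib]
  refine Finset.sum_congr rfl (fun ω _ => ?_)
  by_cases hE : E ω <;> by_cases hF : F ω <;> simp [hE, hF]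

theorem Pr_compl {p : Ω → ℝ} (h1 : ∑ ω, p ω = 1) (E : Ω → Prop) :
    Pr p E + Pr p (fun ω => ¬ E ω) = 1 := by
  classical
  rw [← h1]
  unfold Pr
  rw [← Finset.sum_add_distrib]
  refine Finset.sum_congr rfl (fun ω _ => ?_)
  by_cases hE : E ω <;> simp [hE]

theorem Pr_exists_le {p : Ω → ℝ} (hp : ∀ ω, 0 ≤ p ω) {ι : Type*} (s : Finset ι)
    (E : ι → Ω → Prop) :
    Pr p (fun ω => ∃ i ∈ s, E i ω) ≤ ∑ i ∈ s, Pr p (E i) := by
  classical
  induction s using Finset.induction_on with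
  | empty => simp [Pr]
  | insert a s ha ih =>
    rw [Finset.sum_insert ha]
    refine le_trans (Pr_mono hp (F := fun ω => E a ω ∨ ∃ i ∈ s, E i ω) ?_) ?_
    · rintro ω _ ⟨i, hi, hE⟩
      rcases Finset.mem_insert.1 hi with rfl | hi
      · exact Or.inl hE
      · exact Or.inr ⟨i, hi, hE⟩
    · exact le_trans (Pr_or_le hp _ _) (by linarith)

/-- Markov's inequality -/
theorem Pr_mul_le {p : Ω → ℝ} (hp : ∀ ω, 0 ≤ p ω) (g : Ω → ℝ) (hg : ∀ ω, 0 < p ω → 0 ≤ g ω)
    (t : ℝ) : t * Pr p (fun ω => t < g ω) ≤ ∑ ω, p ω * g ω := by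
  classical
  unfold Pr
  rw [Finset.mul_sum]
  refine Finset.sum_le_sum (fun ω _ => ?_)
  rcases (hp ω).eq_or_lt with h0 | h0
  · simp [← h0]
  · split_ifs with h
    · nlinarith
    · rw [mul_zero]
      exact mul_nonneg h0.le (hg ω h0)

/-- deviations of a density: both tails -/
theorem tails {p : Ω → ℝ} (hp : ∀ ω, 0 ≤ p ω) (r : Ω → ℝ)
    (hr : ∀ ω, 0 < p ω → 0 < r ω) (hr1 : ∑ ω, p ω * r ω ≤ 1) {D : ℝ}
    (hD : ∑ ω, p ω * (-Real.log (r ω)) ≤ D) {t : ℝ} (ht : 0 < t) :
    Pr p (fun ω => t < |Real.log (r ω)|) ≤ (D + 1) / t + Real.exp (-t) := by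
  classical
  have hA : Pr p (fun ω => t < -Real.log (r ω)) ≤ (D + 1) / t := by
    have h2 : t * Pr p (fun ω => t < -Real.log (r ω)) ≤
        ∑ ω, p ω * (max (-Real.log (r ω)) 0) := by
      refine le_trans (mul_le_mul_of_nonneg_left (Pr_mono hp (F := fun ω =>
        t < max (-Real.log (r ω)) 0) ?_) ht.le) (Pr_mul_le hp _ (fun ω _ => le_max_right _ _) t)
      intro ω _ h
      exact lt_of_lt_of_le h (le_max_left _ _)
    have h3 : ∑ ω, p ω * (max (-Real.log (r ω)) 0) ≤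
        ∑ ω, (p ω * (-Real.log (r ω)) + p ω * r ω) := by
      refine Finset.sum_le_sum (fun ω _ => ?_)
      rcases (hp ω).eq_or_lt with h0 | h0
      · simp [← h0]
      · rw [← mul_add]
        refine mul_le_mul_of_nonneg_left ?_ h0.le
        have h4 := hr ω h0
        refine max_le (by linarith) ?_
        have := Real.log_le_sub_one_of_pos h4
        linarith
    rw [Finset.sum_add_distrib] at h3
    rw [le_div_iff₀ ht]
    linarith [mul_comm t (Pr p (fun ω => t < -Real.log (r ω)))]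
  have hB : Pr p (fun ω => t < Real.log (r ω)) ≤ Real.exp (-t) := by
    have h2 : Real.exp t * Pr p (fun ω => Real.exp t < r ω) ≤ ∑ ω, p ω * r ω :=
      Pr_mul_le hp _ (fun ω h => (hr ω h).le) _
    have h3 : Pr p (fun ω => t < Real.log (r ω)) ≤ Pr p (fun ω => Real.exp t < r ω) := by
      refine Pr_mono hp (fun ω h0 h => ?_)
      have h4 := hr ω h0
      rwa [Real.lt_log_iff_exp_lt h4] at h
    have h5 : 0 < Real.exp t := Real.exp_pos t
    have h6 : Real.exp (-t) * Real.exp t = 1 := by rw [← Real.exp_add]; simp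
    have h7 : Pr p (fun ω => Real.exp t < r ω) ≤ Real.exp (-t) := by
      have h8 : Real.exp t * Pr p (fun ω => Real.exp t < r ω) ≤ Real.exp t * Real.exp (-t) := by
        rw [mul_comm (Real.exp t) (Real.exp (-t)), h6]
        linarith
      exact le_of_mul_le_mul_left h8 h5
    linarith
  refine le_trans (Pr_mono hp (F := fun ω => t < -Real.log (r ω) ∨ t < Real.log (r ω)) ?_) ?_
  · intro ω _ h
    rcases lt_abs.1 h with h | h
    · exact Or.inr h
    · exact Or.inl h
  · exact le_trans (Pr_or_le hp _ _) (by linarith)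

/-- the mass of a product law on the support of a pair is at most one -/
theorem sum_prod_law_le {p : Ω → ℝ} (hp : ∀ ω, 0 ≤ p ω) (h1 : ∑ ω, p ω = 1) {S T : Type*}
    (X : Ω → S) (Y : Ω → T) :
    ∑ ω, p ω * (law p X (X ω) * law p Y (Y ω) / law p (fun ω => (X ω, Y ω)) (X ω, Y ω)) ≤ 1 := by
  classical
  have e := sum_mul_eq_sum_image p (fun ω => (X ω, Y ω))
    (fun s => law p X s.1 * law p Y s.2 / law p (fun ω => (X ω, Y ω)) s)
  have e' : ∑ ω, p ω * (law p X (X ω) * law p Y (Y ω) / law p (fun ω => (X ω, Y ω)) (X ω, Y ω)) =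
      ∑ s ∈ univ.image (fun ω => (X ω, Y ω)), law p (fun ω => (X ω, Y ω)) s *
        (law p X s.1 * law p Y s.2 / law p (fun ω => (X ω, Y ω)) s) := by
    simpa using e
  rw [e']
  have h2 : ∑ s ∈ univ.image (fun ω => (X ω, Y ω)), law p (fun ω => (X ω, Y ω)) s *
        (law p X s.1 * law p Y s.2 / law p (fun ω => (X ω, Y ω)) s) ≤
      ∑ s ∈ (univ.image X) ×ˢ (univ.image Y), law p X s.1 * law p Y s.2 := by
    refine le_trans (Finset.sum_le_sum (g := fun s => law p X s.1 * law p Y s.2) ?_) ?_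
    · intro s _
      have ha : 0 ≤ law p X s.1 * law p Y s.2 :=
        mul_nonneg (law_nonneg hp X s.1) (law_nonneg hp Y s.2)
      rcases (law_nonneg hp (fun ω => (X ω, Y ω)) s).eq_or_lt with h0 | h0
      · rw [← h0, zero_mul]
        exact ha
      · rw [mul_div_cancel₀ _ h0.ne']
    · refine Finset.sum_le_sum_of_subset_of_nonneg ?_ (fun s _ _ =>
        mul_nonneg (law_nonneg hp X s.1) (law_nonneg hp Y s.2))
      intro s hs
      obtain ⟨ω, _, rfl⟩ := Finset.mem_image.1 hs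
      exact Finset.mem_product.2 ⟨Finset.mem_image_of_mem _ (mem_univ _),
        Finset.mem_image_of_mem _ (mem_univ _)⟩
  refine le_trans h2 ?_
  rw [Finset.sum_product]
  have h3 : ∀ x ∈ univ.image X, ∑ y ∈ univ.image Y, law p X x * law p Y y = law p X x := by
    intro x _
    rw [← Finset.mul_sum, sum_law, h1, mul_one]
  rw [Finset.sum_congr rfl h3, sum_law, h1]

/-- near independence gives a pointwise comparison off a small set -/
theorem indep_tail {p : Ω → ℝ} (hp : ∀ ω, 0 ≤ p ω) (h1 : ∑ ω, p ω = 1) {S T : Type*}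
    (X : Ω → S) (Y : Ω → T) {D t : ℝ}
    (hD : H p X + H p Y - H p (fun ω => (X ω, Y ω)) ≤ D) (ht : 0 < t) :
    Pr p (fun ω => t < |Real.log (law p (fun ω => (X ω, Y ω)) (X ω, Y ω)) -
      Real.log (law p X (X ω)) - Real.log (law p Y (Y ω))|) ≤ (D + 1) / t + Real.exp (-t) := by
  classical
  set r : Ω → ℝ := fun ω => law p X (X ω) * law p Y (Y ω) /
    law p (fun ω => (X ω, Y ω)) (X ω, Y ω) with hr
  have hpos : ∀ ω, 0 < p ω → 0 < r ω := fun ω h =>
    div_pos (mul_pos (law_pos hp X h) (law_pos hp Y h)) (law_pos hp (fun ω => (X ω, Y ω)) h)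
  have hlog : ∀ ω, 0 < p ω → Real.log (r ω) = Real.log (law p X (X ω)) +
      Real.log (law p Y (Y ω)) - Real.log (law p (fun ω => (X ω, Y ω)) (X ω, Y ω)) := by
    intro ω h
    have a1 := law_pos hp X h
    have a2 := law_pos hp Y h
    have a3 := law_pos hp (fun ω => (X ω, Y ω)) h
    rw [hr]
    simp only
    rw [Real.log_div (mul_pos a1 a2).ne' a3.ne', Real.log_mul a1.ne' a2.ne']
  have hD' : ∑ ω, p ω * (-Real.log (r ω)) ≤ D := by
    refine le_trans (le_of_eq ?_) hD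
    unfold H
    rw [← Finset.sum_neg_distrib, ← Finset.sum_neg_distrib, ← Finset.sum_neg_distrib,
      ← Finset.sum_add_distrib, ← Finset.sum_sub_distrib]
    refine Finset.sum_congr rfl (fun ω _ => ?_)
    rcases (hp ω).eq_or_lt with h0 | h0
    · simp [← h0]
    · rw [hlog ω h0]
      ring
  refine le_trans (Pr_mono hp (F := fun ω => t < |Real.log (r ω)|) ?_)
    (tails hp r hpos (sum_prod_law_le hp h1 X Y) hD' ht)
  intro ω h0 h
  rw [hlog ω h0]
  rw [← abs_neg]
  calc t < _ := h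
    _ = _ := by congr 1; ring

/-- a level of a nonnegative variable with mean below `b` -/
theorem level {p : Ω → ℝ} (hp : ∀ ω, 0 ≤ p ω) (h1 : ∑ ω, p ω = 1) (g : Ω → ℝ)
    (hg : ∀ ω, 0 < p ω → 0 ≤ g ω) {a b t : ℝ} (hE : ∑ ω, p ω * g ω ≤ a) (hab : a < b)
    (ht : 0 < t) {B : ℕ} (hB : b < B * t) :
    ∃ u : ℕ, u < B ∧ (1 - a / b) / B ≤
      Pr p (fun ω => u * t ≤ g ω ∧ g ω < (u + 1) * t ∧ g ω ≤ b) := by
  classical
  have ha : 0 ≤ a := le_trans (Finset.sum_nonneg (fun ω _ => by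
    rcases (hp ω).eq_or_lt with h0 | h0
    · simp [← h0]
    · exact mul_nonneg h0.le (hg ω h0))) hE
  have hb : 0 < b := lt_of_le_of_lt ha hab
  have hBpos : 0 < (B : ℝ) := by
    by_contra hh
    have : (B : ℝ) * t ≤ 0 := mul_nonpos_of_nonpos_of_nonneg (not_lt.1 hh) ht.le
    linarith
  have hM := Pr_mul_le hp g hg b
  have hc := Pr_compl h1 (fun ω => b < g ω)
  have h2 : 1 - a / b ≤ Pr p (fun ω => ¬ b < g ω) := by
    have : Pr p (fun ω => b < g ω) ≤ a / b := by
      rw [le_div_iff₀ hb]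
      linarith [mul_comm b (Pr p (fun ω => b < g ω))]
    linarith
  have h3 : Pr p (fun ω => ¬ b < g ω) ≤
      ∑ u ∈ Finset.range B, Pr p (fun ω => u * t ≤ g ω ∧ g ω < (u + 1) * t ∧ g ω ≤ b) := by
    refine le_trans (Pr_mono hp (F := fun ω => ∃ u ∈ Finset.range B,
      ((u : ℕ) * t ≤ g ω ∧ g ω < (u + 1) * t ∧ g ω ≤ b)) ?_) (Pr_exists_le hp _ _)
    intro ω h0 h
    have hgb : g ω ≤ b := not_lt.1 h
    refine ⟨⌊g ω / t⌋₊, ?_, ?_, ?_, hgb⟩
    · rw [Finset.mem_range, Nat.floor_lt (div_nonneg (hg ω h0) ht.le), div_lt_iff₀ ht]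
      linarith
    · rw [← le_div_iff₀ ht]
      exact Nat.floor_le (div_nonneg (hg ω h0) ht.le)
    · rw [← div_lt_iff₀ ht]
      exact Nat.lt_floor_add_one _
  by_contra hcon
  have h4 : ∀ u ∈ Finset.range B, Pr p (fun ω => u * t ≤ g ω ∧ g ω < (u + 1) * t ∧ g ω ≤ b) <
      (1 - a / b) / B := by
    intro u hu
    by_contra h
    exact hcon ⟨u, Finset.mem_range.1 hu, not_lt.1 h⟩
  have hne : (Finset.range B).Nonempty := by
    rw [Finset.nonempty_range_iff]
    rintro rfl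
    simp at hBpos
  have h5 := Finset.sum_lt_sum_of_nonempty hne h4
  rw [Finset.sum_const, Finset.card_range, nsmul_eq_mul, mul_div_cancel₀ _ hBpos.ne'] at h5
  linarith

theorem law_eq_Pr {S : Type*} (p : Ω → ℝ) (X : Ω → S) (s : S) :
    law p X s = Pr p (fun ω => X ω = s) := by
  classical
  unfold law Pr
  exact Finset.sum_congr rfl (fun ω _ => by congr)

/-- a finite set all of whose points have mass at least `m` -/
theorem card_mul_le {p : Ω → ℝ} (hp : ∀ ω, 0 ≤ p ω) (h1 : ∑ ω, p ω = 1) {S : Type*}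
    (X : Ω → S) (F : Finset S) {m : ℝ} (hm : ∀ s ∈ F, m ≤ law p X s) : F.card * m ≤ 1 := by
  classical
  have h2 : ∑ s ∈ F, law p X s ≤ 1 := by
    have h3 : ∑ s ∈ F, law p X s = ∑ s ∈ F ∩ univ.image X, law p X s := by
      symm
      refine Finset.sum_subset Finset.inter_subset_left (fun s hs hs' => ?_)
      refine law_eq_zero_of_notMem p X (fun h => hs' (Finset.mem_inter.2 ⟨hs, h⟩))
    rw [h3]
    refine le_trans (Finset.sum_le_sum_of_subset_of_nonneg Finset.inter_subset_right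
      (fun s _ _ => law_nonneg hp X s)) ?_
    rw [sum_law, h1]
  calc F.card * m = ∑ s ∈ F, m := by rw [Finset.sum_const, nsmul_eq_mul]
    _ ≤ _ := Finset.sum_le_sum hm
    _ ≤ 1 := h2

/-- an event is covered by the values of a variable on it -/
theorem Pr_le_card {p : Ω → ℝ} (hp : ∀ ω, 0 ≤ p ω) {S : Type*} (X : Ω → S) (E : Ω → Prop)
    (F : Finset S) (hF : ∀ ω, 0 < p ω → E ω → X ω ∈ F) {m : ℝ}
    (hm : ∀ s ∈ F, Pr p (fun ω => E ω ∧ X ω = s) ≤ m) : Pr p E ≤ F.card * m := by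
  classical
  calc Pr p E ≤ Pr p (fun ω => ∃ s ∈ F, E ω ∧ X ω = s) :=
        Pr_mono hp (fun ω h0 h => ⟨X ω, hF ω h0 h, h, rfl⟩)
    _ ≤ ∑ s ∈ F, Pr p (fun ω => E ω ∧ X ω = s) := Pr_exists_le hp F _
    _ ≤ ∑ s ∈ F, m := Finset.sum_le_sum hm
    _ = F.card * m := by rw [Finset.sum_const, nsmul_eq_mul]

/-- the law of a translated variable paired with `V` -/
theorem law_translate {p : Ω → ℝ} {G 𝒱 : Type*} [AddCommGroup G] (n : Ω → G) (V : Ω → 𝒱)
    (φ : 𝒱 → G) (ω : Ω) :
    law p (fun ω => (n ω + φ (V ω), V ω)) (n ω + φ (V ω), V ω) =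
      law p (fun ω => (n ω, V ω)) (n ω, V ω) := by
  classical
  rw [law_eq_Pr, law_eq_Pr]
  unfold Pr
  refine Finset.sum_congr rfl (fun ω' _ => ?_)
  have : (n ω' + φ (V ω'), V ω') = (n ω + φ (V ω), V ω) ↔ (n ω', V ω') = (n ω, V ω) := by
    constructor
    · intro h
      obtain ⟨h2, h3⟩ := Prod.mk.inj h
      rw [h3] at h2
      exact Prod.ext (add_right_cancel h2) h3
    · intro h
      obtain ⟨h2, h3⟩ := Prod.mk.inj h
      exact Prod.ext (by simp only [h2, h3]) h3
  by_cases h : (n ω', V ω') = (n ω, V ω)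
  · rw [if_pos h, if_pos (this.2 h)]
  · rw [if_neg h, if_neg (fun h' => h (this.1 h'))]

/-- **From entropy to sets**, with all parameters free. -/
theorem ent_sets_aux {p : Ω → ℝ} (hp : ∀ ω, 0 ≤ p ω) (h1 : ∑ ω, p ω = 1) {G 𝒱 : Type*}
    [AddCommGroup G] {M : ℕ} (n : Ω → G) (V : Ω → 𝒱) (f : Fin M → 𝒱 → G) (Gd : 𝒱 → Prop)
    {a b t β D : ℝ} {B : ℕ} (ht : 0 < t) (hβ : 0 < β) (ha : H p n ≤ a) (hab : a < b)
    (hB : b < B * t) (hβ2 : β ≤ (1 - a / b) / B)
    (hI0 : H p n + H p V - H p (fun ω => (n ω, V ω)) ≤ D)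
    (hI : ∀ j, H p (fun ω => n ω + f j (V ω)) + H p V -
      H p (fun ω => (n ω + f j (V ω), V ω)) ≤ D)
    (herr : (M + 1) * ((D + 1) / t + Real.exp (-t)) + Pr p (fun ω => ¬ Gd (V ω)) ≤ β / 2)
    (hbt : Real.exp (-t) ≤ β / 4) :
    ∃ (W : Finset 𝒱) (A : Finset G) (A' : Fin M → Finset G) (N : 𝒱 → Finset G),
      β / 4 ≤ Pr p (fun ω => V ω ∈ W) ∧ (∀ v ∈ W, 0 < law p V v ∧ Gd v) ∧
      (A.card : ℝ) ≤ Real.exp b ∧ A.Nonempty ∧
      ∀ v ∈ W, N v ⊆ A ∧ Real.exp (-(3 * t)) * A.card ≤ (N v).card ∧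
        ∀ j, (∀ x ∈ N v, x + f j v ∈ A' j) ∧ ((A' j).card : ℝ) ≤ Real.exp (4 * t) * A.card := by
  classical
  set g : Ω → ℝ := fun ω => -Real.log (law p n (n ω)) with hg
  have hgn : ∀ ω, 0 < p ω → 0 ≤ g ω := by
    intro ω h0
    have h2 : law p n (n ω) ≤ 1 := le_trans (law_le_total hp n _) h1.le
    have := Real.log_nonpos (law_pos hp n h0).le h2
    rw [hg]
    simp only
    linarith
  have hga : ∑ ω, p ω * g ω ≤ a := by
    refine le_trans (le_of_eq ?_) ha
    unfold H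
    rw [← Finset.sum_neg_distrib]
    exact Finset.sum_congr rfl (fun ω _ => by rw [hg]; ring)
  obtain ⟨u, _, hu⟩ := level hp h1 g hgn hga hab ht hB
  set L : Ω → Prop := fun ω => u * t ≤ g ω ∧ g ω < (u + 1) * t ∧ g ω ≤ b with hL
  set G0 : Ω → Prop := fun ω => t < |Real.log (law p (fun ω => (n ω, V ω)) (n ω, V ω)) -
      Real.log (law p n (n ω)) - Real.log (law p V (V ω))| with hG0
  set Gj : Fin M → Ω → Prop := fun j ω => t < |Real.log (law p (fun ω =>
      (n ω + f j (V ω), V ω)) (n ω + f j (V ω), V ω)) -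
      Real.log (law p (fun ω => n ω + f j (V ω)) (n ω + f j (V ω))) -
      Real.log (law p V (V ω))| with hGj
  set E : Ω → Prop := fun ω => L ω ∧ ¬ G0 ω ∧ (∀ j, ¬ Gj j ω) ∧ Gd (V ω) with hE
  have hG0p : Pr p G0 ≤ (D + 1) / t + Real.exp (-t) := indep_tail hp h1 n V hI0 ht
  have hGjp : ∀ j, Pr p (Gj j) ≤ (D + 1) / t + Real.exp (-t) := fun j =>
    indep_tail hp h1 (fun ω => n ω + f j (V ω)) V (hI j) ht
  have hLE : Pr p L ≤ Pr p E + β / 2 := by
    have h2 : Pr p L ≤ Pr p (fun ω => E ω ∨ (G0 ω ∨ ((∃ j ∈ (univ : Finset (Fin M)), Gj j ω) ∨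
        ¬ Gd (V ω)))) := by
      refine Pr_mono hp (fun ω _ h => ?_)
      by_cases h3 : G0 ω
      · exact Or.inr (Or.inl h3)
      · by_cases h4 : ∃ j ∈ (univ : Finset (Fin M)), Gj j ω
        · exact Or.inr (Or.inr (Or.inl h4))
        · by_cases h5 : Gd (V ω)
          · exact Or.inl ⟨h, h3, fun j hj => h4 ⟨j, mem_univ j, hj⟩, h5⟩
          · exact Or.inr (Or.inr (Or.inr h5))
    have h3 := Pr_or_le hp E (fun ω => G0 ω ∨ ((∃ j ∈ (univ : Finset (Fin M)), Gj j ω) ∨
        ¬ Gd (V ω)))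
    have h4 := Pr_or_le hp G0 (fun ω => (∃ j ∈ (univ : Finset (Fin M)), Gj j ω) ∨ ¬ Gd (V ω))
    have h5 := Pr_or_le hp (fun ω => ∃ j ∈ (univ : Finset (Fin M)), Gj j ω)
      (fun ω => ¬ Gd (V ω))
    have h6 := Pr_exists_le hp (univ : Finset (Fin M)) Gj
    have h7 : ∑ j, Pr p (Gj j) ≤ M * ((D + 1) / t + Real.exp (-t)) := by
      refine le_trans (Finset.sum_le_sum (fun j _ => hGjp j)) ?_
      rw [Finset.sum_const, Finset.card_univ, Fintype.card_fin, nsmul_eq_mul]
    linarith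
  have hEp : β / 2 ≤ Pr p E := by linarith
  -- the values of `V`
  set W : Finset 𝒱 := (univ.image V).filter (fun v => 0 < law p V v ∧ Gd v ∧
    β / 4 * law p V v ≤ Pr p (fun ω => E ω ∧ V ω = v)) with hW
  have hWp : β / 4 ≤ Pr p (fun ω => V ω ∈ W) := by
    have h2 : Pr p E ≤ Pr p (fun ω => V ω ∈ W) + Pr p (fun ω => E ω ∧ V ω ∉ W) := by
      refine le_trans (Pr_mono hp (F := fun ω => V ω ∈ W ∨ (E ω ∧ V ω ∉ W)) ?_) (Pr_or_le hp _ _)
      intro ω _ h
      by_cases h3 : V ω ∈ W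
      · exact Or.inl h3
      · exact Or.inr ⟨h, h3⟩
    have h3 : Pr p (fun ω => E ω ∧ V ω ∉ W) ≤ β / 4 := by
      calc Pr p (fun ω => E ω ∧ V ω ∉ W)
          ≤ Pr p (fun ω => ∃ v ∈ univ.image V, (E ω ∧ V ω ∉ W) ∧ V ω = v) :=
            Pr_mono hp (fun ω _ h => ⟨V ω, mem_image_of_mem V (mem_univ ω), h, rfl⟩)
        _ ≤ ∑ v ∈ univ.image V, Pr p (fun ω => (E ω ∧ V ω ∉ W) ∧ V ω = v) :=
            Pr_exists_le hp _ _
        _ ≤ ∑ v ∈ univ.image V, β / 4 * law p V v := by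
            refine Finset.sum_le_sum (fun v hv => ?_)
            by_cases hvW : v ∈ W
            · have h4 : Pr p (fun ω => (E ω ∧ V ω ∉ W) ∧ V ω = v) ≤ 0 := by
                refine le_trans (Pr_mono hp (F := fun _ => False) ?_) (by simp [Pr])
                rintro ω _ ⟨⟨_, h5⟩, rfl⟩
                exact h5 hvW
              exact le_trans h4 (mul_nonneg (by linarith) (law_nonneg hp V v))
            · by_cases hz : 0 < law p V v
              · by_cases hgd : Gd v
                · have h5 : Pr p (fun ω => E ω ∧ V ω = v) < β / 4 * law p V v := by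
                    by_contra h6
                    exact hvW (mem_filter.2 ⟨hv, hz, hgd, not_lt.1 h6⟩)
                  refine le_trans (Pr_mono hp ?_) h5.le
                  rintro ω _ ⟨⟨h7, _⟩, h8⟩
                  exact ⟨h7, h8⟩
                · have h4 : Pr p (fun ω => (E ω ∧ V ω ∉ W) ∧ V ω = v) ≤ 0 := by
                    refine le_trans (Pr_mono hp (F := fun _ => False) ?_) (by simp [Pr])
                    rintro ω _ ⟨⟨h5, _⟩, rfl⟩
                    exact hgd h5.2.2.2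
                  exact le_trans h4 (mul_nonneg (by linarith) (law_nonneg hp V v))
              · have h4 : Pr p (fun ω => (E ω ∧ V ω ∉ W) ∧ V ω = v) ≤ 0 := by
                  refine le_trans (Pr_mono hp (F := fun _ => False) ?_) (by simp [Pr])
                  rintro ω h0 ⟨_, rfl⟩
                  exact hz (law_pos hp V h0)
                exact le_trans h4 (mul_nonneg (by linarith) (law_nonneg hp V v))
        _ = β / 4 := by rw [← Finset.mul_sum, sum_law, h1, mul_one]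
    linarith
  set A : Finset G := (univ.filter (fun ω => 0 < p ω ∧ L ω)).image n with hA
  set A' : Fin M → Finset G := fun j =>
    (univ.filter (fun ω => 0 < p ω ∧ E ω)).image (fun ω => n ω + f j (V ω)) with hA'
  set N : 𝒱 → Finset G := fun v => (univ.filter (fun ω => 0 < p ω ∧ E ω ∧ V ω = v)).image n
    with hN
  have hlogn : ∀ ω, Real.log (law p n (n ω)) = -g ω := fun ω => by rw [hg]; simp
  have hAmem : ∀ x ∈ A, Real.exp (-((u + 1) * t)) ≤ law p n x ∧ law p n x ≤ Real.exp (-(u * t)) ∧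
      Real.exp (-b) ≤ law p n x := by
    intro x hx
    obtain ⟨ω, hω, rfl⟩ := mem_image.1 hx
    obtain ⟨h0, hl1, hl2, hl3⟩ := (mem_filter.1 hω).2
    have hpos := law_pos hp n h0
    have hlg := hlogn ω
    refine ⟨?_, ?_, ?_⟩
    · rw [← Real.le_log_iff_exp_le hpos, hlg]; linarith
    · rw [← Real.log_le_iff_le_exp hpos, hlg]; linarith
    · rw [← Real.le_log_iff_exp_le hpos, hlg]; linarith
  have hAup : (A.card : ℝ) ≤ Real.exp b := by
    have h2 := card_mul_le hp h1 n A (fun x hx => (hAmem x hx).2.2)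
    have h3 : Real.exp (-b) * Real.exp b = 1 := by rw [← Real.exp_add]; simp
    have h4 : 0 < Real.exp b := Real.exp_pos b
    nlinarith [h2, h3, h4]
  have hAup2 : (A.card : ℝ) ≤ Real.exp ((u + 1) * t) := by
    have h2 := card_mul_le hp h1 n A (fun x hx => (hAmem x hx).1)
    have h3 : Real.exp (-((u + 1) * t)) * Real.exp ((u + 1) * t) = 1 := by
      rw [← Real.exp_add]; simp
    have h4 : 0 < Real.exp ((u + 1) * t) := Real.exp_pos _
    nlinarith [h2, h3, h4]
  have hLA : β ≤ A.card * Real.exp (-(u * t)) := by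
    refine le_trans (le_trans hβ2 hu) (Pr_le_card hp n L A ?_ ?_)
    · intro ω h0 h
      exact mem_image.2 ⟨ω, mem_filter.2 ⟨mem_univ ω, h0, h⟩, rfl⟩
    · intro x hx
      refine le_trans (Pr_mono hp (F := fun ω => n ω = x) (fun ω _ h => h.2)) ?_
      rw [← law_eq_Pr]
      exact (hAmem x hx).2.1
  have hexu : Real.exp (-(u * t)) * Real.exp (u * t) = 1 := by rw [← Real.exp_add]; simp
  have hAlow : β * Real.exp (u * t) ≤ A.card := by
    have h4 : 0 < Real.exp (u * t) := Real.exp_pos _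
    calc β * Real.exp (u * t) ≤ (A.card * Real.exp (-(u * t))) * Real.exp (u * t) :=
          mul_le_mul_of_nonneg_right hLA h4.le
      _ = A.card := by rw [mul_assoc, hexu, mul_one]
  have hAne : A.Nonempty := by
    rw [← Finset.card_pos]
    have : (0 : ℝ) < A.card := lt_of_lt_of_le (mul_pos hβ (Real.exp_pos _)) hAlow
    exact_mod_cast this
  refine ⟨W, A, A', N, hWp, fun v hv => ⟨(mem_filter.1 hv).2.1, (mem_filter.1 hv).2.2.1⟩, hAup,
    hAne, fun v hv => ⟨?_, ?_, fun j => ⟨?_, ?_⟩⟩⟩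
  · intro x hx
    obtain ⟨ω, hω, rfl⟩ := mem_image.1 hx
    obtain ⟨h0, hE', _⟩ := (mem_filter.1 hω).2
    exact mem_image.2 ⟨ω, mem_filter.2 ⟨mem_univ ω, h0, hE'.1⟩, rfl⟩
  · -- the size of `N v`
    obtain ⟨_, hv0, _, hvE⟩ := mem_filter.1 hv
    have h2 : Pr p (fun ω => E ω ∧ V ω = v) ≤
        (N v).card * (law p V v * Real.exp (t - u * t)) := by
      refine Pr_le_card hp n _ (N v) ?_ ?_
      · intro ω h0 h
        exact mem_image.2 ⟨ω, mem_filter.2 ⟨mem_univ ω, h0, h⟩, rfl⟩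
      · intro x hx
        obtain ⟨ω, hω, rfl⟩ := mem_image.1 hx
        obtain ⟨h0, hE', hVv⟩ := (mem_filter.1 hω).2
        refine le_trans (Pr_mono hp (F := fun ω' => (n ω', V ω') = (n ω, V ω)) ?_) ?_
        · rintro ω' _ ⟨⟨_, h5⟩, h6⟩
          exact Prod.ext h6 (h5.trans hVv.symm)
        · rw [← law_eq_Pr, ← hVv]
          have hq1 := law_pos hp (fun ω => (n ω, V ω)) h0
          have hq2 := law_pos hp V h0
          have h7 := not_lt.1 hE'.2.1
          have h8 := (abs_le.1 h7).2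
          have h9 := hlogn ω
          have h10 := hE'.1.1
          rw [← Real.log_le_log_iff hq1 (mul_pos hq2 (Real.exp_pos _)),
            Real.log_mul hq2.ne' (Real.exp_pos _).ne', Real.log_exp]
          linarith
    have h3 : β / 4 ≤ (N v).card * Real.exp (t - u * t) := by
      have h4 : β / 4 * law p V v ≤ ((N v).card * Real.exp (t - u * t)) * law p V v := by
        refine le_trans hvE (le_trans h2 (le_of_eq (by ring)))
      exact le_of_mul_le_mul_right h4 hv0
    have h5 : Real.exp (-t) ≤ (N v).card * Real.exp (t - u * t) := le_trans hbt h3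
    have h6 : Real.exp (-(3 * t)) * A.card ≤ Real.exp (-(3 * t)) * Real.exp ((u + 1) * t) :=
      mul_le_mul_of_nonneg_left hAup2 (Real.exp_pos _).le
    refine le_trans h6 ?_
    rw [← Real.exp_add]
    have h7 : Real.exp (-(3 * t) + (u + 1) * t) = Real.exp (-t) * Real.exp (u * t - t) := by
      rw [← Real.exp_add]
      congr 1
      ring
    rw [h7]
    have h8 : Real.exp (t - u * t) * Real.exp (u * t - t) = 1 := by
      rw [← Real.exp_add]
      simp
    calc Real.exp (-t) * Real.exp (u * t - t)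
        ≤ ((N v).card * Real.exp (t - u * t)) * Real.exp (u * t - t) :=
          mul_le_mul_of_nonneg_right h5 (Real.exp_pos _).le
      _ = (N v).card := by rw [mul_assoc, h8, mul_one]
  · intro x hx
    obtain ⟨ω, hω, rfl⟩ := mem_image.1 hx
    obtain ⟨h0, hE', hVv⟩ := (mem_filter.1 hω).2
    exact mem_image.2 ⟨ω, mem_filter.2 ⟨mem_univ ω, h0, hE'⟩, by simp only [hVv]⟩
  · -- the size of `A' j`
    have h2 : ((A' j).card : ℝ) * Real.exp (-((u + 3) * t)) ≤ 1 := by
      refine card_mul_le hp h1 (fun ω => n ω + f j (V ω)) (A' j) ?_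
      intro x hx
      obtain ⟨ω, hω, rfl⟩ := mem_image.1 hx
      obtain ⟨h0, hE'⟩ := (mem_filter.1 hω).2
      have hq1 := law_pos hp (fun ω => n ω + f j (V ω)) h0
      have hq2 := law_pos hp V h0
      have h7 := (abs_le.1 (not_lt.1 hE'.2.1)).1
      have h8 := (abs_le.1 (not_lt.1 (hE'.2.2.1 j))).2
      have h9 := hlogn ω
      have h10 := hE'.1.2.1
      rw [law_translate n V (f j) ω] at h8
      rw [← Real.le_log_iff_exp_le hq1]
      linarith
    have h3 : Real.exp (-((u + 3) * t)) * Real.exp ((u + 3) * t) = 1 := by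
      rw [← Real.exp_add]; simp
    have h4 : ((A' j).card : ℝ) ≤ Real.exp ((u + 3) * t) := by
      have h5 : 0 < Real.exp ((u + 3) * t) := Real.exp_pos _
      nlinarith [h2, h3, h5]
    refine le_trans h4 ?_
    have h5 : Real.exp (4 * t) * (β * Real.exp (u * t)) ≤ Real.exp (4 * t) * A.card :=
      mul_le_mul_of_nonneg_left hAlow (Real.exp_pos _).le
    refine le_trans ?_ h5
    have h6 : Real.exp ((u + 3) * t) = Real.exp (4 * t) * (Real.exp (-t) * Real.exp (u * t)) := by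
      rw [← Real.exp_add, ← Real.exp_add]
      congr 1
      ring
    rw [h6]
    refine mul_le_mul_of_nonneg_left (mul_le_mul_of_nonneg_right ?_ (Real.exp_pos _).le)
      (Real.exp_pos _).le
    linarith

/-- **From entropy to sets.**  If `n` has entropy at most `(c - c₀) X` and `n`, `n + f j V` are
independent of `V` up to `ι X`, there are sets with the properties of a composition lemma:
`N v ⊆ A`, `N v + f j v ⊆ A' j`, of nearly the same size, for `v` in a set of values of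
probability at least `η`, which may be taken in any given set of probability at least `1 - η`. -/
theorem ent_sets (M : ℕ) (c c₀ κ : ℝ) (hc₀ : 0 < c₀) (hcc : c₀ ≤ c) (hκ : 0 < κ) :
    ∃ η ι X₀ : ℝ, 0 < η ∧ 0 < ι ∧ 0 < X₀ ∧ ∀ X ≥ X₀, ∀ {Ω : Type*} [Fintype Ω] (p : Ω → ℝ)
      {G 𝒱 : Type*} [AddCommGroup G] (n : Ω → G) (V : Ω → 𝒱) (f : Fin M → 𝒱 → G)
      (Gd : 𝒱 → Prop), (∀ ω, 0 ≤ p ω) → ∑ ω, p ω = 1 → H p n ≤ (c - c₀) * X →
      H p n + H p V - H p (fun ω => (n ω, V ω)) ≤ ι * X →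
      (∀ j, H p (fun ω => n ω + f j (V ω)) + H p V -
        H p (fun ω => (n ω + f j (V ω), V ω)) ≤ ι * X) →
      Pr p (fun ω => ¬ Gd (V ω)) ≤ η →
      ∃ (W : Finset 𝒱) (A : Finset G) (A' : Fin M → Finset G) (N : 𝒱 → Finset G),
        η ≤ Pr p (fun ω => V ω ∈ W) ∧ (∀ v ∈ W, 0 < law p V v ∧ Gd v) ∧
        (A.card : ℝ) ≤ Real.exp ((c - c₀ / 2) * X) ∧ A.Nonempty ∧
        ∀ v ∈ W, N v ⊆ A ∧ Real.exp (-(κ * X)) * A.card ≤ (N v).card ∧
          ∀ j, (∀ x ∈ N v, x + f j v ∈ A' j) ∧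
            ((A' j).card : ℝ) ≤ Real.exp (κ * X) * A.card := by
  have hd : 0 < c - c₀ / 2 := by linarith
  set t₀ : ℝ := κ / 4 with ht₀
  have ht₀p : 0 < t₀ := by positivity
  set B : ℕ := ⌊(c - c₀ / 2) / t₀⌋₊ + 1 with hB
  have hBp : 0 < (B : ℝ) := by rw [hB]; positivity
  have hBt : c - c₀ / 2 < B * t₀ := by
    rw [← div_lt_iff₀ ht₀p, hB]
    push_cast
    exact Nat.lt_floor_add_one _
  set β : ℝ := (1 - (c - c₀) / (c - c₀ / 2)) / B with hβ
  have hβp : 0 < β := by
    refine div_pos ?_ hBp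
    rw [sub_pos, div_lt_one hd]
    linarith
  set m : ℝ := (M : ℝ) + 1 with hm
  have hmp : 1 ≤ m := by
    have : (0 : ℝ) ≤ M := Nat.cast_nonneg M
    linarith
  set θ : ℝ := β / (16 * m) with hθ
  have hθp : 0 < θ := by positivity
  have hθm : m * θ = β / 16 := by rw [hθ]; field_simp
  have hθβ : θ ≤ β / 16 := by rw [← hθm]; nlinarith
  obtain ⟨X₁, hX₁⟩ : ∃ X₁ : ℝ, ∀ X ≥ X₁, Real.exp (-(t₀ * X)) ≤ θ := by
    refine ⟨-Real.log θ / t₀, fun X hX => ?_⟩
    rw [← Real.le_log_iff_exp_le hθp]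
    rw [ge_iff_le, div_le_iff₀ ht₀p] at hX
    linarith [mul_comm X t₀]
  refine ⟨β / 4, θ * t₀, max (max X₁ (1 / (t₀ * θ))) 1, by positivity, by positivity,
    lt_of_lt_of_le one_pos (le_max_right _ _), ?_⟩
  intro X hX Ω _ p G 𝒱 _ n V f Gd hp h1 hH hI0 hI hGd
  have hX1 : 1 ≤ X := le_trans (le_max_right _ _) hX
  have hXp : 0 < X := by linarith
  have hXa : X₁ ≤ X := le_trans (le_trans (le_max_left _ _) (le_max_left _ _)) hX
  have hXb : 1 / (t₀ * θ) ≤ X := le_trans (le_trans (le_max_right _ _) (le_max_left _ _)) hX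
  have htX : 0 < t₀ * X := mul_pos ht₀p hXp
  have hexp : Real.exp (-(t₀ * X)) ≤ θ := hX₁ X hXa
  have hone : 1 / (t₀ * X) ≤ θ := by
    rw [div_le_iff₀ (mul_pos ht₀p hθp)] at hXb
    rw [div_le_iff₀ htX]
    nlinarith
  have hab : (c - c₀) * X < (c - c₀ / 2) * X := by nlinarith
  have hdiv : (c - c₀) * X / ((c - c₀ / 2) * X) = (c - c₀) / (c - c₀ / 2) :=
    mul_div_mul_right _ _ hXp.ne'
  obtain ⟨W, A, A', N, h2, h3, h4, h5, h6⟩ := ent_sets_aux hp h1 n V f Gd (a := (c - c₀) * X)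
    (b := (c - c₀ / 2) * X) (t := t₀ * X) (β := β) (D := θ * t₀ * X) (B := B) htX hβp hH hab
    (by nlinarith) (by rw [hdiv]) hI0 hI
    (by
      have h7 : (θ * t₀ * X + 1) / (t₀ * X) = θ + 1 / (t₀ * X) := by
        field_simp
      rw [h7, ← hm]
      have h8 : m * (θ + 1 / (t₀ * X) + Real.exp (-(t₀ * X))) ≤ m * (θ + θ + θ) :=
        mul_le_mul_of_nonneg_left (by linarith) (by linarith)
      nlinarith [h8, hθm, hGd])
    (by linarith)
  refine ⟨W, A, A', N, h2, h3, h4, h5, fun v hv => ?_⟩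
  obtain ⟨h7, h8, h9⟩ := h6 v hv
  have hA0 : (0 : ℝ) ≤ A.card := Nat.cast_nonneg _
  refine ⟨h7, le_trans (mul_le_mul_of_nonneg_right ?_ hA0) h8, fun j => ⟨(h9 j).1,
    le_trans (h9 j).2 (mul_le_mul_of_nonneg_right ?_ hA0)⟩⟩
  · refine Real.exp_le_exp.2 ?_
    rw [ht₀]
    nlinarith
  · refine Real.exp_le_exp.2 ?_
    rw [ht₀]
    nlinarith

/-- A full variable: its atoms are small off a set of small probability. -/
theorem full_tail {p : Ω → ℝ} (hp : ∀ ω, 0 ≤ p ω) (h1 : ∑ ω, p ω = 1) {S : Type*} (y : Ω → S)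
    (F : Finset S) (hF : ∀ ω, 0 < p ω → y ω ∈ F) {K D t : ℝ} (hK : (F.card : ℝ) ≤ Real.exp K)
    (hH : K - D ≤ H p y) (ht : 0 < t) :
    Pr p (fun ω => Real.exp (-(K - t)) < law p y (y ω)) ≤ (D + 1) / t + Real.exp (-t) := by
  classical
  set r : Ω → ℝ := fun ω => 1 / (Real.exp K * law p y (y ω)) with hr
  have hpos : ∀ ω, 0 < p ω → 0 < r ω := fun ω h =>
    div_pos one_pos (mul_pos (Real.exp_pos K) (law_pos hp y h))
  have hlog : ∀ ω, 0 < p ω → Real.log (r ω) = -K - Real.log (law p y (y ω)) := by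
    intro ω h
    have a1 := law_pos hp y h
    rw [hr]
    simp only
    rw [one_div, Real.log_inv, Real.log_mul (Real.exp_pos K).ne' a1.ne', Real.log_exp]
    ring
  have hr1 : ∑ ω, p ω * r ω ≤ 1 := by
    have e := sum_mul_eq_sum_image p y (fun s => 1 / (Real.exp K * law p y s))
    have e' : ∑ ω, p ω * r ω =
        ∑ s ∈ univ.image y, law p y s * (1 / (Real.exp K * law p y s)) := by
      simpa [hr] using e
    rw [e']
    have h2 : ∑ s ∈ univ.image y, law p y s * (1 / (Real.exp K * law p y s)) ≤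
        ∑ s ∈ F, Real.exp (-K) := by
      rw [← Finset.sum_filter_add_sum_filter_not (univ.image y) (fun s => s ∈ F)]
      have h3 : ∑ s ∈ (univ.image y).filter (fun s => ¬ s ∈ F),
          law p y s * (1 / (Real.exp K * law p y s)) = 0 := by
        refine Finset.sum_eq_zero (fun s hs => ?_)
        obtain ⟨hs1, hs2⟩ := mem_filter.1 hs
        have h4 : law p y s = 0 := by
          rw [law_eq_Pr]
          refine le_antisymm (le_trans (Pr_mono hp (F := fun _ => False) ?_) (by simp [Pr]))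
            (Pr_nonneg hp _)
          rintro ω h0 rfl
          exact hs2 (hF ω h0)
        rw [h4, zero_mul]
      rw [h3, add_zero]
      refine le_trans (Finset.sum_le_sum (g := fun _ => Real.exp (-K)) ?_)
        (Finset.sum_le_sum_of_subset_of_nonneg ?_ (fun _ _ _ => (Real.exp_pos _).le))
      · intro s _
        rcases (law_nonneg hp y s).eq_or_lt with h0 | h0
        · rw [← h0, zero_mul]
          exact (Real.exp_pos _).le
        · rw [Real.exp_neg]
          have := Real.exp_pos K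
          field_simp
          exact le_rfl
      · exact fun s hs => (mem_filter.1 hs).2
    refine le_trans h2 ?_
    rw [Finset.sum_const, nsmul_eq_mul]
    have h3 : Real.exp K * Real.exp (-K) = 1 := by rw [← Real.exp_add]; simp
    calc (F.card : ℝ) * Real.exp (-K) ≤ Real.exp K * Real.exp (-K) :=
          mul_le_mul_of_nonneg_right hK (Real.exp_pos _).le
      _ = 1 := h3
  have hD' : ∑ ω, p ω * (-Real.log (r ω)) ≤ D := by
    have h2 : ∑ ω, p ω * (-Real.log (r ω)) = ∑ ω, (p ω * K + p ω * Real.log (law p y (y ω))) := by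
      refine Finset.sum_congr rfl (fun ω _ => ?_)
      rcases (hp ω).eq_or_lt with h0 | h0
      · simp [← h0]
      · rw [hlog ω h0]
        ring
    rw [h2, Finset.sum_add_distrib, ← Finset.sum_mul, h1]
    unfold H at hH
    linarith
  refine le_trans (Pr_mono hp (F := fun ω => t < |Real.log (r ω)|) ?_)
    (tails hp r hpos hr1 hD' ht)
  intro ω h0 h
  rw [hlog ω h0, lt_abs]
  right
  have h2 := law_pos hp y h0
  have h3 : -(K - t) < Real.log (law p y (y ω)) := (Real.lt_log_iff_exp_lt h2).2 h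
  linarith

/-- Sets of values of positive probability have large images under a full variable. -/
theorem card_image_ge {p : Ω → ℝ} (hp : ∀ ω, 0 ≤ p ω) {𝒱 S : Type*} [DecidableEq S] (V : Ω → 𝒱)
    (y : 𝒱 → S) (W : Finset 𝒱) {m : ℝ}
    (hm : ∀ v ∈ W, law p (fun ω => y (V ω)) (y v) ≤ m) :
    Pr p (fun ω => V ω ∈ W) ≤ (W.image y).card * m := by
  classical
  refine Pr_le_card hp (fun ω => y (V ω)) _ (W.image y)
    (fun ω _ h => mem_image_of_mem y h) ?_
  intro s hs
  obtain ⟨v, hv, rfl⟩ := mem_image.1 hs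
  refine le_trans (Pr_mono hp (F := fun ω => y (V ω) = y v) (fun ω _ h => h.2)) ?_
  rw [← law_eq_Pr]
  exact hm v hv

end Pool.CMPE
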